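import Pool.Agent.H25.VT.Spec

/-! VT swarm, part DEC. -/

set_option autoImplicit false

open MeasureTheory
open scoped ENNReal NNReal

namespace Pool.Agent.Helper71.VT.DEC

open Pool.Agent.H25.VT

theorem le_lq (q : ℝ≥0∞) (hq : 1 ≤ q) (a : ℕ → ℝ≥0∞) (j : ℕ) : a j ≤ lq q a := by
  unfold lq
  split_ifs with h
  · exact le_iSup a j
  · have hq0 : 0 < q.toReal := ENNReal.toReal_pos (by positivity) h
    calc a j = (a j ^ q.toReal) ^ (1 / q.toReal) := by
          rw [← ENNReal.rpow_mul, mul_one_div, div_self hq0.ne', ENNReal.rpow_one]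
      _ ≤ _ := by
          apply ENNReal.rpow_le_rpow _ (by positivity)
          exact ENNReal.le_tsum j

theorem sum_pow (q : ℝ≥0∞) (hq : 1 ≤ q) (h : q ≠ ∞) (a : ℕ → ℝ≥0∞) :
    (∑' j, a j ^ q.toReal) = lq q a ^ q.toReal := by
  unfold lq
  rw [if_neg h]
  have hq0 : 0 < q.toReal := ENNReal.toReal_pos (by positivity) h
  rw [← ENNReal.rpow_mul, one_div, inv_mul_cancel₀ hq0.ne', ENNReal.rpow_one]

open Classical in
theorem main : S_DEC := by
  intro n Q hQ hQ1 u hu
  have hF : Measurable (fun x => lq (Q x) (fun j => u j x)) := by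
    unfold lq
    apply Measurable.ite
    · exact hQ (measurableSet_singleton ∞)
    · exact Measurable.iSup hu
    · apply Measurable.pow
      · exact Measurable.ennreal_tsum (fun j => (hu j).pow hQ.ennreal_toReal)
      · exact measurable_const.div hQ.ennreal_toReal
  refine ⟨hF, ?_⟩
  set F : E n → ℝ≥0∞ := fun x => lq (Q x) (fun j => u j x) with hFdef
  let b : ℕ → E n → ℝ≥0∞ := fun j x =>
    if Q x = ∞ then 0 else if F x = 0 then 0 else if F x = ∞ then 0 else
      (u j x / F x) ^ (Q x).toReal
  have hb : ∀ j, Measurable (b j) := by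
    intro j
    apply Measurable.ite (hQ (measurableSet_singleton ∞)) measurable_const
    apply Measurable.ite (hF (measurableSet_singleton 0)) measurable_const
    apply Measurable.ite (hF (measurableSet_singleton ∞)) measurable_const
    exact ((hu j).div hF).pow hQ.ennreal_toReal
  refine ⟨fun j x => max (b j x) (ENNReal.ofReal ((2 : ℝ)⁻¹ ^ j)), ?_, ?_, ?_, ?_⟩
  · intro j
    exact (hb j).max measurable_const
  · intro j y
    refine ⟨le_max_right _ _, max_le ?_ ?_⟩
    · simp only [b]
      split_ifs with h1 h2 h3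
      · exact zero_le_one
      · exact zero_le_one
      · exact zero_le_one
      · apply ENNReal.rpow_le_one _ ENNReal.toReal_nonneg
        exact ENNReal.div_le_of_le_mul (by rw [one_mul]; exact le_lq (Q y) (hQ1 y) _ j)
    · rw [← ENNReal.ofReal_one]
      apply ENNReal.ofReal_le_ofReal
      exact pow_le_one₀ (by norm_num) (by norm_num)
  · intro x
    have hgeo : ∑' j : ℕ, ENNReal.ofReal ((2 : ℝ)⁻¹ ^ j) = 2 := by
      have : ∀ j : ℕ, ENNReal.ofReal ((2 : ℝ)⁻¹ ^ j) = (2⁻¹ : ℝ≥0∞) ^ j := by
        intro j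
        rw [ENNReal.ofReal_pow (by norm_num), ENNReal.ofReal_inv_of_pos (by norm_num)]
        norm_num
      simp_rw [this]
      rw [ENNReal.tsum_geometric]
      rw [ENNReal.one_sub_inv_two, inv_inv]
    have hbs : ∑' j, b j x ≤ 1 := by
      simp only [b]
      split_ifs with h1 h2 h3
      · simp
      · simp
      · simp
      · have hq0 : 0 < (Q x).toReal := ENNReal.toReal_pos
            (ne_of_gt (lt_of_lt_of_le zero_lt_one (hQ1 x))) h1
        have e : ∀ j, (u j x / F x) ^ (Q x).toReal
            = u j x ^ (Q x).toReal * (F x ^ (Q x).toReal)⁻¹ := by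
          intro j
          rw [ENNReal.div_rpow_of_nonneg _ _ hq0.le, ENNReal.div_eq_inv_mul, mul_comm]
        simp_rw [e]
        rw [ENNReal.tsum_mul_right, sum_pow (Q x) (hQ1 x) h1]
        exact ENNReal.mul_inv_le_one _
    calc ∑' j, max (b j x) (ENNReal.ofReal ((2 : ℝ)⁻¹ ^ j))
        ≤ ∑' j, (b j x + ENNReal.ofReal ((2 : ℝ)⁻¹ ^ j)) := by
          apply ENNReal.tsum_le_tsum
          intro j
          exact max_le le_self_add le_add_self
      _ = ∑' j, b j x + ∑' j : ℕ, ENNReal.ofReal ((2 : ℝ)⁻¹ ^ j) := ENNReal.tsum_add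
      _ ≤ 1 + 2 := add_le_add hbs hgeo.le
      _ = 3 := by norm_num
  · intro j x
    have hle : u j x ≤ F x := le_lq (Q x) (hQ1 x) (fun j => u j x) j
    change u j x ≤ F x * _
    by_cases h1 : Q x = ∞
    · rw [h1]
      simpa using hle
    · by_cases h2 : F x = 0
      · rw [h2] at hle
        have : u j x = 0 := le_antisymm hle bot_le
        rw [this]
        exact bot_le
      · by_cases h3 : F x = ∞
        · rw [h3]
          have hpos : 0 < max (b j x) (ENNReal.ofReal ((2 : ℝ)⁻¹ ^ j)) :=
            lt_of_lt_of_le (ENNReal.ofReal_pos.mpr (by positivity)) (le_max_right _ _)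
          have hfin : max (b j x) (ENNReal.ofReal ((2 : ℝ)⁻¹ ^ j)) ≠ ∞ := by
            simp only [b]
            rw [if_neg h1, if_neg h2, if_pos h3]
            simp
          have hne : max (b j x) (ENNReal.ofReal ((2 : ℝ)⁻¹ ^ j)) ^ ((Q x)⁻¹).toReal ≠ 0 :=
            (ENNReal.rpow_pos hpos hfin).ne'
          rw [ENNReal.top_mul hne]
          exact le_top
        · have hq0 : 0 < (Q x).toReal := ENNReal.toReal_pos
            (ne_of_gt (lt_of_lt_of_le zero_lt_one (hQ1 x))) h1
          have hbv : b j x = (u j x / F x) ^ (Q x).toReal := by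
            simp only [b]
            rw [if_neg h1, if_neg h2, if_neg h3]
          have hge : u j x / F x ≤
              max (b j x) (ENNReal.ofReal ((2 : ℝ)⁻¹ ^ j)) ^ ((Q x)⁻¹).toReal := by
            calc u j x / F x = (b j x) ^ ((Q x)⁻¹).toReal := by
                  rw [hbv, ← ENNReal.rpow_mul, ENNReal.toReal_inv, mul_inv_cancel₀ hq0.ne',
                    ENNReal.rpow_one]
              _ ≤ _ := ENNReal.rpow_le_rpow (le_max_left _ _) ENNReal.toReal_nonneg
          calc u j x = F x * (u j x / F x) := by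
                rw [ENNReal.mul_div_cancel h2 h3]
            _ ≤ _ := by gcongr

end Pool.Agent.Helper71.VT.DEC
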