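import Pool.Agent.H25.VT.Spec

/-! VT swarm, part EXPO. -/

set_option autoImplicit false

open MeasureTheory
open scoped ENNReal NNReal

namespace Pool.Agent.Helper71.VT.EXPO

open Pool.Agent.H25.VT

theorem lip (n : ℕ) (g : E n → ℝ) (h : ℝ → ℝ) (L : ℝ≥0) (hL : LipschitzWith L h)
    (hg : LogHolder g) : LogHolder (fun x => h (g x)) := by
  obtain ⟨⟨hc, c, hloc⟩, c', ginf, hinf⟩ := hg
  have hl : ∀ s t, |h s - h t| ≤ L * |s - t| := fun s t => by
    have := hL.dist_le_mul s t
    simpa [Real.dist_eq] using this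
  refine ⟨⟨hL.continuous.comp hc, L * c, fun x y => ?_⟩, L * c', h ginf, fun x => ?_⟩
  · refine (hl _ _).trans ?_
    rw [mul_div_assoc]
    exact mul_le_mul_of_nonneg_left (hloc x y) L.2
  · refine (hl _ _).trans ?_
    rw [mul_div_assoc]
    exact mul_le_mul_of_nonneg_left (hinf x) L.2

/-- `t ↦ 1 / (r * max t d)` is Lipschitz. -/
theorem lip_inv (r d : ℝ) (hr : 0 < r) (hd : 0 < d) :
    LipschitzWith (Real.toNNReal (1 / (r * d ^ 2))) (fun t : ℝ => (max t d)⁻¹ / r) := by
  apply LipschitzWith.of_dist_le_mul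
  intro s t
  rw [Real.coe_toNNReal _ (by positivity), Real.dist_eq, Real.dist_eq]
  have hs : d ≤ max s d := le_max_right _ _
  have ht : d ≤ max t d := le_max_right _ _
  have hs0 : 0 < max s d := lt_of_lt_of_le hd hs
  have ht0 : 0 < max t d := lt_of_lt_of_le hd ht
  have e : (max s d)⁻¹ / r - (max t d)⁻¹ / r = (max t d - max s d) / (r * (max s d * max t d)) := by
    field_simp
  rw [e, abs_div, abs_of_pos (show 0 < r * (max s d * max t d) by positivity)]
  have h1 : |max t d - max s d| ≤ |s - t| := by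
    have := abs_max_sub_max_le_abs t s d
    rwa [abs_sub_comm t s] at this
  have h2 : r * d ^ 2 ≤ r * (max s d * max t d) := by
    have : d ^ 2 ≤ max s d * max t d := by nlinarith
    nlinarith
  calc |max t d - max s d| / (r * (max s d * max t d)) ≤ |s - t| / (r * d ^ 2) := by
        apply div_le_div₀ (abs_nonneg _) h1 (by positivity) h2
    _ = 1 / (r * d ^ 2) * |s - t| := by ring

theorem main : S_EXPO := by
  intro n p c hn hc hp hcp hlog hess
  -- a real bound
  obtain ⟨M, hM1, hM⟩ : ∃ M : ℝ, 1 ≤ M ∧ ∀ᵐ x ∂(volume : Measure (E n)), p x ≤ ENNReal.ofReal M := by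
    refine ⟨max 1 (essSup p volume).toReal, le_max_left _ _, ?_⟩
    filter_upwards [ENNReal.ae_le_essSup p] with x hx
    refine hx.trans ?_
    rw [← ENNReal.ofReal_toReal hess.ne]
    exact ENNReal.ofReal_le_ofReal (by rw [ENNReal.toReal_ofReal ENNReal.toReal_nonneg]; exact le_max_right _ _)
  have hM0 : 0 < M := by linarith
  have hcont : Continuous (fun x => ((p x)⁻¹).toReal) := hlog.1.1
  have hp0 : ∀ x, p x ≠ 0 := fun x => ne_of_gt (lt_of_le_of_lt bot_le (hcp x))
  have hge : ∀ x, M⁻¹ ≤ ((p x)⁻¹).toReal := by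
    by_contra hcon
    push Not at hcon
    obtain ⟨x0, hx0⟩ := hcon
    have hopen : IsOpen {x | ((p x)⁻¹).toReal < M⁻¹} := isOpen_lt hcont continuous_const
    have hpos : 0 < volume {x | ((p x)⁻¹).toReal < M⁻¹} := hopen.measure_pos volume ⟨x0, hx0⟩
    have hnull : volume {x | ((p x)⁻¹).toReal < M⁻¹} = 0 := by
      refine measure_mono_null ?_ (ae_iff.mp hM)
      intro x hx hle
      have hfin : p x ≠ ∞ := ne_top_of_le_ne_top ENNReal.ofReal_ne_top hle
      simp only [Set.mem_setOf_eq] at hx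
      have h1 : (p x).toReal ≤ M := by
        have := ENNReal.toReal_mono ENNReal.ofReal_ne_top hle
        rwa [ENNReal.toReal_ofReal hM0.le] at this
      have h0 : 0 < (p x).toReal := ENNReal.toReal_pos (hp0 x) hfin
      rw [ENNReal.toReal_inv] at hx
      have := inv_anti₀ h0 h1
      linarith
    exact hpos.ne' hnull
  have hfin : ∀ x, p x < ∞ := by
    intro x
    rw [lt_top_iff_ne_top]
    intro h
    have := hge x
    rw [h] at this
    simp at this
    have h2 : 0 < M⁻¹ := by positivity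
    linarith
  have hval : ∀ x, (p x).toReal = (max ((p x)⁻¹).toReal M⁻¹)⁻¹ := by
    intro x
    rw [max_eq_left (hge x), ENNReal.toReal_inv, inv_inv]
  refine ⟨hfin, fun r hr hrc => ⟨M / r, ?_, fun x => ⟨?_, ?_⟩⟩⟩
  · have := lip n (fun x => ((p x)⁻¹).toReal) _ _ (lip_inv r M⁻¹ hr (by positivity)) hlog
    have e : (fun x => (p x).toReal / r) = (fun x => (max ((p x)⁻¹).toReal M⁻¹)⁻¹ / r) := by
      funext x
      rw [hval x]
    rw [e]
    exact this
  · apply div_le_div_of_nonneg_right _ hr.le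
    have := ENNReal.toReal_mono (hfin x).ne (hcp x).le
    rwa [ENNReal.toReal_ofReal hc.le] at this
  · apply div_le_div_of_nonneg_right _ hr.le
    rw [hval x, inv_le_comm₀ (by positivity) hM0]
    exact le_max_right _ _

end Pool.Agent.Helper71.VT.EXPO
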