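import Pool.Agent.H25.VT.Spec

/-! VT swarm, part KB. -/

set_option autoImplicit false

open MeasureTheory
open scoped ENNReal NNReal SchwartzMap FourierTransform

namespace Pool.Agent.Helper71.VT.KB

open Pool.Agent.H25.VT

/-- Schwartz decay. -/
theorem decay (n : ℕ) (ψ : 𝓢(E n, ℂ)) : ∃ A : ℕ → ℝ, ∀ (M : ℕ), 0 ≤ A M ∧ ∀ (x : E n),
    ‖ψ x‖ ≤ A M * (1 + ‖x‖) ^ (-(M : ℝ)) := by
  refine ⟨fun M => 2 ^ M * (Finset.Iic ((M, 0) : ℕ × ℕ)).sup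
    (fun m => SchwartzMap.seminorm ℝ m.1 m.2) ψ, fun M => ⟨by positivity, fun x => ?_⟩⟩
  have h := SchwartzMap.one_add_le_sup_seminorm_apply (𝕜 := ℝ) (m := (M, 0)) (k := M) (n := 0)
    le_rfl le_rfl ψ x
  rw [norm_iteratedFDeriv_zero] at h
  have hp : 0 < 1 + ‖x‖ := by positivity
  rw [Real.rpow_neg hp.le, Real.rpow_natCast, ← div_eq_mul_inv, le_div_iff₀ (by positivity)]
  rw [mul_comm]
  exact h

theorem fourierInv_dil (n : ℕ) (φ : 𝓢(E n, ℂ)) (k : ℕ) (x : E n) :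
    (𝓕⁻ (dil φ k) : 𝓢(E n, ℂ)) x = ((2 : ℝ) ^ (k * n)) • (𝓕⁻ φ : 𝓢(E n, ℂ)) ((2 : ℝ) ^ k • x) := by
  rw [SchwartzMap.fourierInv_coe, SchwartzMap.fourierInv_coe]
  rw [Real.fourierInv_eq, Real.fourierInv_eq]
  have h := MeasureTheory.Measure.integral_comp_inv_smul_of_nonneg (volume : Measure (E n))
    (fun v : E n => (Real.fourierChar (inner ℝ v ((2 : ℝ) ^ k • x))) • φ v)
    (R := (2 : ℝ) ^ k) (by positivity)
  have hf : Module.finrank ℝ (E n) = n := by simp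
  rw [hf, ← pow_mul] at h
  rw [← h]
  congr 1
  funext v
  rw [dil_apply, inv_pow, inner_smul_left, inner_smul_right]
  simp only [map_inv₀, map_pow, RCLike.conj_to_real]
  rw [← mul_assoc, inv_mul_cancel₀ (by positivity), one_mul]

theorem dil_bound (n : ℕ) (φ : 𝓢(E n, ℂ)) (B : ℝ) (M : ℕ) (hB0 : 0 ≤ B)
    (hB : ∀ x : E n, ‖(𝓕⁻ φ : 𝓢(E n, ℂ)) x‖ ≤ B * (1 + ‖x‖) ^ (-(M : ℝ))) (k : ℕ) (x : E n) :
    ‖(𝓕⁻ (dil φ k) : 𝓢(E n, ℂ)) x‖ ≤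
      B * ((2 : ℝ) ^ (k * n) * (1 + (2 : ℝ) ^ k * ‖x‖) ^ (-(M : ℝ))) := by
  rw [fourierInv_dil, norm_smul, Real.norm_of_nonneg (by positivity)]
  have h := hB ((2 : ℝ) ^ k • x)
  rw [norm_smul, Real.norm_of_nonneg (by positivity)] at h
  calc (2 : ℝ) ^ (k * n) * ‖(𝓕⁻ φ : 𝓢(E n, ℂ)) ((2 : ℝ) ^ k • x)‖
      ≤ (2 : ℝ) ^ (k * n) * (B * (1 + (2 : ℝ) ^ k * ‖x‖) ^ (-(M : ℝ))) :=
        mul_le_mul_of_nonneg_left h (by positivity)
    _ = _ := by ring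

theorem main : S_KB := by
  intro n φ
  obtain ⟨B, hB⟩ := decay n (𝓕⁻ φ : 𝓢(E n, ℂ))
  -- neighbouring scales
  have hup : ∀ (j M : ℕ) (x : E n), ‖(𝓕⁻ (dil φ (j + 1)) : 𝓢(E n, ℂ)) x‖
      ≤ (2 ^ n * B M) * ((2 : ℝ) ^ (j * n) * (1 + (2 : ℝ) ^ j * ‖x‖) ^ (-(M : ℝ))) := by
    intro j M x
    refine (dil_bound n φ (B M) M (hB M).1 (hB M).2 (j + 1) x).trans ?_
    have h1 : (1 + (2 : ℝ) ^ (j + 1) * ‖x‖) ^ (-(M : ℝ)) ≤ (1 + (2 : ℝ) ^ j * ‖x‖) ^ (-(M : ℝ)) := by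
      apply Real.rpow_le_rpow_of_nonpos (by positivity) _ (by simp)
      have : (2 : ℝ) ^ j ≤ 2 ^ (j + 1) := pow_le_pow_right₀ (by norm_num) (by omega)
      have := mul_le_mul_of_nonneg_right this (norm_nonneg x)
      linarith
    have h2 : (2 : ℝ) ^ ((j + 1) * n) = 2 ^ n * 2 ^ (j * n) := by ring
    rw [h2]
    have hB0 := (hB M).1
    calc B M * (2 ^ n * 2 ^ (j * n) * (1 + (2 : ℝ) ^ (j + 1) * ‖x‖) ^ (-(M : ℝ)))
        ≤ B M * (2 ^ n * 2 ^ (j * n) * (1 + (2 : ℝ) ^ j * ‖x‖) ^ (-(M : ℝ))) := by gcongr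
      _ = _ := by ring
  have hdown : ∀ (j M : ℕ) (x : E n), ‖(𝓕⁻ (dil φ j) : 𝓢(E n, ℂ)) x‖
      ≤ (2 ^ M * B M) * ((2 : ℝ) ^ ((j + 1) * n) * (1 + (2 : ℝ) ^ (j + 1) * ‖x‖) ^ (-(M : ℝ))) := by
    intro j M x
    refine (dil_bound n φ (B M) M (hB M).1 (hB M).2 j x).trans ?_
    have h1 : (1 + (2 : ℝ) ^ j * ‖x‖) ^ (-(M : ℝ)) ≤
        2 ^ M * (1 + (2 : ℝ) ^ (j + 1) * ‖x‖) ^ (-(M : ℝ)) := by
      rw [Real.rpow_neg (by positivity), Real.rpow_neg (by positivity), Real.rpow_natCast,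
        Real.rpow_natCast, ← div_eq_mul_inv, le_div_iff₀ (by positivity),
        inv_mul_le_iff₀ (by positivity), ← mul_pow]
      apply pow_le_pow_left₀ (by positivity)
      have : (2 : ℝ) ^ (j + 1) = 2 * 2 ^ j := by ring
      rw [this]
      linarith
    have h2 : (2 : ℝ) ^ (j * n) ≤ 2 ^ ((j + 1) * n) :=
      pow_le_pow_right₀ (by norm_num) (Nat.mul_le_mul_right _ (by omega))
    have hB0 := (hB M).1
    calc B M * (2 ^ (j * n) * (1 + (2 : ℝ) ^ j * ‖x‖) ^ (-(M : ℝ)))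
        ≤ B M * (2 ^ ((j + 1) * n) * (2 ^ M * (1 + (2 : ℝ) ^ (j + 1) * ‖x‖) ^ (-(M : ℝ)))) := by
          gcongr
      _ = _ := by ring
  refine ⟨fun M => (2 ^ n + 2 ^ M + 1) * B M, ?_, ?_⟩
  · intro j M x
    have hB0 := (hB M).1
    rcases j with _ | j
    · have h := (hB M).2 x
      have e : res φ 0 = φ := rfl
      rw [e]
      refine h.trans ?_
      have e2 : (2 : ℝ) ^ (0 * n) * (1 + (2 : ℝ) ^ 0 * ‖x‖) ^ (-(M : ℝ)) =
        (1 + ‖x‖) ^ (-(M : ℝ)) := by simp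
      rw [e2]
      have hp : 0 ≤ (1 + ‖x‖) ^ (-(M : ℝ)) := by positivity
      apply mul_le_mul_of_nonneg_right _ hp
      have : (0 : ℝ) ≤ 2 ^ n + 2 ^ M := by positivity
      nlinarith
    · have e : res φ (j + 1) = dil φ (j + 1) - dil φ j := rfl
      have e3 : (𝓕⁻ (res φ (j + 1)) : 𝓢(E n, ℂ)) x =
          (𝓕⁻ (dil φ (j + 1)) : 𝓢(E n, ℂ)) x - (𝓕⁻ (dil φ j) : 𝓢(E n, ℂ)) x := by
        rw [e, sub_eq_add_neg, FourierTransform.fourierInv_add, FourierTransform.fourierInv_neg]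
        rfl
      rw [e3]
      refine (norm_sub_le _ _).trans ?_
      have h1 := dil_bound n φ (B M) M (hB M).1 (hB M).2 (j + 1) x
      have h2 := hdown j M x
      refine (add_le_add h1 h2).trans ?_
      have hp : 0 ≤ (2 : ℝ) ^ ((j + 1) * n) * (1 + (2 : ℝ) ^ (j + 1) * ‖x‖) ^ (-(M : ℝ)) := by
        positivity
      rw [← add_mul]
      apply mul_le_mul_of_nonneg_right _ hp
      have : (0 : ℝ) ≤ 2 ^ n := by positivity
      nlinarith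
  · intro j M x
    refine (hup j M x).trans ?_
    have hB0 := (hB M).1
    have hp : 0 ≤ (2 : ℝ) ^ (j * n) * (1 + (2 : ℝ) ^ j * ‖x‖) ^ (-(M : ℝ)) := by positivity
    apply mul_le_mul_of_nonneg_right _ hp
    have : (0 : ℝ) ≤ 2 ^ M + 1 := by positivity
    nlinarith

end Pool.Agent.Helper71.VT.KB
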