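import Pool.Agent.H25.VT.Spec

/-! VT swarm, part VM2. -/

set_option autoImplicit false

open MeasureTheory
open scoped ENNReal NNReal

namespace Pool.Agent.Helper71.VT.VM2

open Pool.Agent.H25.VT

theorem real_step (s p q c y L : ℝ) (hs : 0 < s) (hs1 : s ≤ 1) (hy : 0 ≤ y) (hc : 0 ≤ c)
    (hL : 0 ≤ L) (hst : (Real.exp 1 + y) ^ (-L) ≤ s)
    (h : |p - q| ≤ c / Real.log (Real.exp 1 + y)) :
    s ^ p ≤ Real.exp (L * c) * s ^ q := by
  have hE : 0 < Real.exp 1 + y := by positivity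
  have h1 : 1 ≤ Real.log (Real.exp 1 + y) := by
    rw [Real.le_log_iff_exp_le hE]
    linarith
  have hlogs : Real.log s ≤ 0 := Real.log_nonpos hs.le hs1
  have hlog : -L * Real.log (Real.exp 1 + y) ≤ Real.log s := by
    rw [← Real.log_rpow hE]
    exact Real.log_le_log (by positivity) hst
  have h2 : |p - q| * Real.log (Real.exp 1 + y) ≤ c := by
    rwa [le_div_iff₀ (by linarith)] at h
  rw [Real.rpow_def_of_pos hs, Real.rpow_def_of_pos hs, ← Real.exp_add]
  apply Real.exp_le_exp.mpr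
  have h3 : Real.log s * (p - q) ≤ -Real.log s * |p - q| := by
    have := neg_abs_le (p - q)
    nlinarith
  have h4 : -Real.log s * |p - q| ≤ L * c := by
    calc -Real.log s * |p - q| ≤ (L * Real.log (Real.exp 1 + y)) * |p - q| := by
          apply mul_le_mul_of_nonneg_right _ (abs_nonneg _)
          linarith
      _ = L * (|p - q| * Real.log (Real.exp 1 + y)) := by ring
      _ ≤ L * c := mul_le_mul_of_nonneg_left h2 hL
  linarith

theorem step (t : ℝ≥0∞) (p q c y L : ℝ) (ht : t ≤ 1) (hy : 0 ≤ y) (hc : 0 ≤ c) (hp : 1 ≤ p)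
    (hL : 0 ≤ L) (h : |p - q| ≤ c / Real.log (Real.exp 1 + y)) :
    t ^ p ≤ ENNReal.ofReal (Real.exp (L * c)) * t ^ q + ENNReal.ofReal ((1 + y) ^ (-L)) := by
  lift t to ℝ≥0 using ne_top_of_le_ne_top ENNReal.one_ne_top ht
  have ht1 : (t : ℝ) ≤ 1 := by exact_mod_cast ht
  by_cases hst : (Real.exp 1 + y) ^ (-L) ≤ (t : ℝ)
  · have hs : (0 : ℝ) < t := lt_of_lt_of_le (by positivity) hst
    have key := real_step t p q c y L hs ht1 hy hc hL hst h
    have ht0 : t ≠ 0 := by
      intro h0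
      rw [h0] at hs
      simp at hs
    refine le_trans ?_ le_self_add
    have e1 : ∀ r : ℝ, (t : ℝ≥0∞) ^ r = ENNReal.ofReal ((t : ℝ) ^ r) := by
      intro r
      rw [← ENNReal.ofReal_rpow_of_pos hs, ENNReal.ofReal_coe_nnreal]
    rw [e1, e1, ← ENNReal.ofReal_mul (by positivity)]
    exact ENNReal.ofReal_le_ofReal key
  · refine le_trans ?_ le_add_self
    push Not at hst
    calc (t : ℝ≥0∞) ^ p ≤ (t : ℝ≥0∞) ^ (1 : ℝ) := by
          apply ENNReal.rpow_le_rpow_of_exponent_ge ht hp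
      _ = ENNReal.ofReal (t : ℝ) := by rw [ENNReal.rpow_one, ENNReal.ofReal_coe_nnreal]
      _ ≤ _ := by
          apply ENNReal.ofReal_le_ofReal
          refine le_trans hst.le ?_
          apply Real.rpow_le_rpow_of_nonpos (by positivity) _ (by linarith)
          have := Real.add_one_le_exp (1 : ℝ)
          linarith

theorem main : S_VM2 := by
  intro n P a b c Pinf hn ha hP haP hPb hc
  have hint : Integrable (fun x : E n => (1 + ‖x‖) ^ (-((n : ℝ) + 1))) volume := by
    apply integrable_one_add_norm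
    simp
  have hfin : ∫⁻ x : E n, ENNReal.ofReal ((1 + ‖x‖) ^ (-((n : ℝ) + 1))) ≠ ∞ := by
    have := hint.lintegral_lt_top
    exact this.ne
  have hc' : ∀ x : E n, |P x - Pinf| ≤ (max c 0) / Real.log (Real.exp 1 + ‖x‖) := by
    intro x
    refine (hc x).trans ?_
    have hE : 0 < Real.exp 1 + ‖x‖ := by positivity
    have h1 : 1 ≤ Real.log (Real.exp 1 + ‖x‖) := by
      rw [Real.le_log_iff_exp_le hE]
      linarith [norm_nonneg x]
    apply div_le_div_of_nonneg_right (le_max_left _ _) (by linarith)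
  refine ⟨max (ENNReal.ofReal (Real.exp (((n : ℝ) + 1) * max c 0)))
      (∫⁻ x : E n, ENNReal.ofReal ((1 + ‖x‖) ^ (-((n : ℝ) + 1)))),
    fun x => ENNReal.ofReal ((1 + ‖x‖) ^ (-((n : ℝ) + 1))), ?_, ?_, ?_, ?_⟩
  · exact (max_lt ENNReal.ofReal_lt_top hfin.lt_top).ne
  · fun_prop
  · exact le_max_right _ _
  · intro t x ht
    have hbig : ENNReal.ofReal (Real.exp (((n : ℝ) + 1) * max c 0)) ≤
        max (ENNReal.ofReal (Real.exp (((n : ℝ) + 1) * max c 0)))
      (∫⁻ x : E n, ENNReal.ofReal ((1 + ‖x‖) ^ (-((n : ℝ) + 1)))) := le_max_left _ _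
    constructor
    · refine (step t (P x) Pinf (max c 0) ‖x‖ ((n : ℝ) + 1) ht (norm_nonneg x)
        (le_max_right _ _) (ha.le.trans (hP x).1) (by positivity) (hc' x)).trans ?_
      gcongr
    · refine (step t Pinf (P x) (max c 0) ‖x‖ ((n : ℝ) + 1) ht (norm_nonneg x)
        (le_max_right _ _) (ha.le.trans haP) (by positivity) (by
          rw [abs_sub_comm]; exact hc' x)).trans ?_
      gcongr

end Pool.Agent.Helper71.VT.VM2
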